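import Mathlib

set_option autoImplicit false

namespace Pool.Agent.R237.WM

open MonoidAlgebra

section
variable {H : Type} [Group H]

/-- The inclusion of `ZH` in `Z[H × ℤ]`. -/
noncomputable def iota (H : Type) [Group H] :
    MonoidAlgebra ℤ H →+* MonoidAlgebra ℤ (H × Multiplicative ℤ) :=
  mapDomainRingHom ℤ (MonoidHom.inl H (Multiplicative ℤ))

/-- The projection. -/
noncomputable def proj (H : Type) [Group H] :
    MonoidAlgebra ℤ (H × Multiplicative ℤ) →+* MonoidAlgebra ℤ H :=
  mapDomainRingHom ℤ (MonoidHom.fst H (Multiplicative ℤ))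

theorem iota_single (g : H) (r : ℤ) : iota H (single g r) = single (g, 1) r := by
  simp [iota]

theorem proj_single (g : H × Multiplicative ℤ) (r : ℤ) : proj H (single g r) = single g.1 r := by
  simp [proj]

theorem proj_iota (x : MonoidAlgebra ℤ H) : proj H (iota H x) = x := by
  have h : ((proj H).comp (iota H) : MonoidAlgebra ℤ H →+* MonoidAlgebra ℤ H).toAddMonoidHom =
      AddMonoidHom.id _ := by
    apply addMonoidHom_ext
    intro m r
    simp [iota_single, proj_single]
  exact DFunLike.congr_fun h x

theorem inj_pair (n : Multiplicative ℤ) : Function.Injective (fun g : H => (g, n)) := by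
  intro a b h
  simpa using h

/-- The coefficient of `t^n`. -/
noncomputable def pr (n : Multiplicative ℤ) :
    MonoidAlgebra ℤ (H × Multiplicative ℤ) →+ MonoidAlgebra ℤ H :=
  (coeffAddEquiv.symm.toAddMonoidHom.comp
    (Finsupp.comapDomain.addMonoidHom (inj_pair (H := H) n))).comp coeffAddEquiv.toAddMonoidHom

theorem coeff_pr (n : Multiplicative ℤ) (x : MonoidAlgebra ℤ (H × Multiplicative ℤ)) (g : H) :
    (pr n x).coeff g = x.coeff (g, n) := by
  simp [pr, Finsupp.comapDomain.addMonoidHom]

theorem pr_single (n : Multiplicative ℤ) (g : H) (k : Multiplicative ℤ) (r : ℤ) :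
    pr n (single (g, k) r) = if k = n then single g r else 0 := by
  classical
  ext h
  rw [coeff_pr]
  by_cases hk : k = n
  · subst hk
    simp [Finsupp.single_apply, Prod.ext_iff]
  · simp [Finsupp.single_apply, Prod.ext_iff, hk]

theorem pr_mul_iota (n : Multiplicative ℤ) (x : MonoidAlgebra ℤ (H × Multiplicative ℤ))
    (y : MonoidAlgebra ℤ H) : pr n (x * iota H y) = pr n x * y := by
  classical
  have h1 : (pr n).comp (AddMonoidHom.mulRight (iota H y)) =
      (AddMonoidHom.mulRight y).comp (pr (H := H) n) := by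
    apply addMonoidHom_ext
    rintro ⟨g, k⟩ r
    simp only [AddMonoidHom.comp_apply, AddMonoidHom.coe_mulRight, pr_single]
    have h2 : ((pr n).comp (AddMonoidHom.mulLeft (single (g, k) r))).comp
        (iota H).toAddMonoidHom =
        AddMonoidHom.mulLeft (if k = n then single g r else 0 : MonoidAlgebra ℤ H) := by
      apply addMonoidHom_ext
      intro h s
      simp only [AddMonoidHom.comp_apply, AddMonoidHom.coe_mulLeft, RingHom.toAddMonoidHom_eq_coe,
        AddMonoidHom.coe_coe, iota_single, single_mul_single, Prod.mk_mul_mk, mul_one, pr_single]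
      split_ifs <;> simp
    exact DFunLike.congr_fun h2 y
  exact DFunLike.congr_fun h1 x

theorem pr_shift (n k : Multiplicative ℤ) (x : MonoidAlgebra ℤ (H × Multiplicative ℤ)) :
    pr n (single ((1 : H), k) 1 * x) = pr (k⁻¹ * n) x := by
  ext h
  rw [coeff_pr, coeff_pr]
  simp

theorem sum_pr (x : MonoidAlgebra ℤ (H × Multiplicative ℤ)) :
    ∃ s : Finset (Multiplicative ℤ),
      x = ∑ n ∈ s, single ((1 : H), n) 1 * iota H (pr n x) := by
  classical
  refine ⟨x.coeff.support.image Prod.snd, ?_⟩
  have key : ∀ (n : Multiplicative ℤ) (y : MonoidAlgebra ℤ H) (g : H) (k : Multiplicative ℤ),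
      (single ((1 : H), n) 1 * iota H y).coeff (g, k) = if k = n then y.coeff g else 0 := by
    intro n y g k
    rw [← coeff_pr, pr_mul_iota, pr_single]
    split_ifs with h1 h2 h2
    · rw [← one_def, one_mul]
    · exact absurd h1.symm h2
    · exact absurd h2.symm h1
    · simp
  ext ⟨g, k⟩
  rw [coeff_sum, Finsupp.finsetSum_apply]
  simp only [key, coeff_pr]
  rw [Finset.sum_ite_eq]
  split_ifs with h
  · rfl
  · by_contra hne
    apply h
    rw [Finset.mem_image]
    exact ⟨(g, k), Finsupp.mem_support_iff.mpr hne, rfl⟩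

/-- `t^k` acts on `Z[H × ℤ]/(f)` without nonzero fixed points. -/
theorem mem_of_shift {f : MonoidAlgebra ℤ H} {k : Multiplicative ℤ} (hk : k ≠ 1)
    (v : MonoidAlgebra ℤ (H × Multiplicative ℤ))
    (hv : single ((1 : H), k) 1 * v - v ∈
      Submodule.span (MonoidAlgebra ℤ (H × Multiplicative ℤ)) {iota H f}) :
    v ∈ Submodule.span (MonoidAlgebra ℤ (H × Multiplicative ℤ)) {iota H f} := by
  classical
  rw [Submodule.mem_span_singleton] at hv
  obtain ⟨x, hx⟩ := hv
  set L : Submodule (MonoidAlgebra ℤ H) (MonoidAlgebra ℤ H) :=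
    Submodule.span (MonoidAlgebra ℤ H) {f} with hL
  have h1 : ∀ n, pr (k⁻¹ * n) v - pr n v ∈ L := by
    intro n
    have h := congrArg (pr n) hx
    rw [smul_eq_mul, pr_mul_iota, map_sub, pr_shift] at h
    rw [← h]
    exact Submodule.mem_span_singleton.mpr ⟨pr n x, rfl⟩
  have h2 : ∀ (j : ℕ) n, pr ((k⁻¹) ^ j * n) v ∈ L → pr n v ∈ L := by
    intro j
    induction j with
    | zero => intro n h; simpa using h
    | succ j ih =>
      intro n h
      have h3 : pr (k⁻¹ * n) v ∈ L := by
        apply ih
        rwa [← mul_assoc, ← pow_succ]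
      have h4 := L.sub_mem h3 (h1 n)
      simpa using h4
  have h3 : ∀ n, pr n v ∈ L := by
    intro n
    obtain ⟨j, hj⟩ : ∃ j : ℕ, ((k⁻¹) ^ j * n) ∉ v.coeff.support.image Prod.snd := by
      by_contra hcon
      push Not at hcon
      have hinj : Function.Injective (fun j : ℕ => (k⁻¹) ^ j * n) := by
        intro a b hab
        have h5 : (k⁻¹) ^ a = (k⁻¹) ^ b := mul_right_cancel hab
        have h6 : (Multiplicative.toAdd k⁻¹) * a = (Multiplicative.toAdd k⁻¹) * b := by
          have := congrArg Multiplicative.toAdd h5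
          simp only [toAdd_pow, toAdd_inv] at this
          simp only [toAdd_inv]
          have h7 : (a : ℤ) * -Multiplicative.toAdd k = b * -Multiplicative.toAdd k := by
            simpa using this
          linarith
        have h8 : Multiplicative.toAdd k⁻¹ ≠ 0 := by
          intro h
          apply hk
          have : Multiplicative.toAdd k = 0 := by simpa using h
          exact Multiplicative.toAdd.injective (by simpa using this)
        have := mul_left_cancel₀ h8 h6
        exact_mod_cast this
      exact Set.infinite_of_injective_forall_mem hinj hcon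
        (Finset.finite_toSet (v.coeff.support.image Prod.snd))
    apply h2 j
    have h0 : pr ((k⁻¹) ^ j * n) v = 0 := by
      ext g
      rw [coeff_pr]
      by_contra hne
      apply hj
      rw [Finset.mem_image]
      exact ⟨_, Finsupp.mem_support_iff.mpr hne, rfl⟩
    rw [h0]
    exact L.zero_mem
  obtain ⟨s, hs⟩ := sum_pr v
  rw [hs]
  refine Submodule.sum_mem _ fun n _ => ?_
  obtain ⟨y, hy⟩ := Submodule.mem_span_singleton.mp (h3 n)
  rw [← hy]
  refine Submodule.mem_span_singleton.mpr ⟨single ((1 : H), n) 1 * iota H y, ?_⟩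
  rw [smul_eq_mul, smul_eq_mul, map_mul, mul_assoc]

end

end Pool.Agent.R237.WM
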