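import Pool.Agent.R237.WM.Defs

set_option autoImplicit false

namespace Pool.Agent.R237.WM

open Matrix

/-- The group `SL₂(ℤ)`. -/
abbrev SL2 : Type := Matrix.SpecialLinearGroup (Fin 2) ℤ

/-- The group `SL₂(ℤ) × ℤ`. -/
abbrev GG : Type := SL2 × Multiplicative ℤ

/-- First coordinate of `g (1, √2)`. -/
noncomputable def xc (g : SL2) : ℝ := (g.1 0 0 : ℝ) + (g.1 0 1 : ℝ) * Real.sqrt 2

/-- Second coordinate of `g (1, √2)`. -/
noncomputable def yc (g : SL2) : ℝ := (g.1 1 0 : ℝ) + (g.1 1 1 : ℝ) * Real.sqrt 2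

theorem ne_zero_of_sqrt (a b : ℤ) (h : (a : ℝ) + (b : ℝ) * Real.sqrt 2 = 0) : a = 0 ∧ b = 0 := by
  have hb : b = 0 := by
    by_contra hb
    have hb' : (b : ℝ) ≠ 0 := by exact_mod_cast hb
    have h2 : Real.sqrt 2 = ((-a / b : ℚ) : ℝ) := by
      push_cast
      field_simp
      linarith
    exact irrational_sqrt_two ⟨_, h2.symm⟩
  subst hb
  refine ⟨?_, rfl⟩
  have : (a : ℝ) = 0 := by simpa using h
  exact_mod_cast this

theorem xc_ne (g : SL2) : xc g ≠ 0 := by
  intro h
  obtain ⟨h1, h2⟩ := ne_zero_of_sqrt _ _ h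
  have hd := g.2
  rw [Matrix.det_fin_two, h1, h2] at hd
  simp at hd

theorem yc_ne (g : SL2) : yc g ≠ 0 := by
  intro h
  obtain ⟨h1, h2⟩ := ne_zero_of_sqrt _ _ h
  have hd := g.2
  rw [Matrix.det_fin_two, h1, h2] at hd
  simp at hd

/-- `T = (1 1; 0 1)`. -/
def TT : SL2 := ⟨!![1, 1; 0, 1], by simp [Matrix.det_fin_two_of]⟩
/-- `L = (1 0; 1 1)`. -/
def LL : SL2 := ⟨!![1, 0; 1, 1], by simp [Matrix.det_fin_two_of]⟩
/-- `S = (0 -1; 1 0)`. -/
def SS : SL2 := ⟨!![0, -1; 1, 0], by simp [Matrix.det_fin_two_of]⟩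

theorem xc_T (g : SL2) : xc (TT * g) = xc g + yc g := by
  simp [xc, yc, TT, Matrix.mul_apply, Fin.sum_univ_two]
  ring
theorem yc_T (g : SL2) : yc (TT * g) = yc g := by
  simp [yc, TT, Matrix.mul_apply, Fin.sum_univ_two]
theorem xc_L (g : SL2) : xc (LL * g) = xc g := by
  simp [xc, LL, Matrix.mul_apply, Fin.sum_univ_two]
theorem yc_L (g : SL2) : yc (LL * g) = xc g + yc g := by
  simp [xc, yc, LL, Matrix.mul_apply, Fin.sum_univ_two]
  ring
theorem xc_S (g : SL2) : xc (SS * g) = - yc g := by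
  simp [xc, yc, SS, Matrix.mul_apply, Fin.sum_univ_two]
  ring
theorem yc_S (g : SL2) : yc (SS * g) = xc g := by
  simp [xc, yc, SS, Matrix.mul_apply, Fin.sum_univ_two]

theorem nonamenable : ¬ Amenable GG := by
  rintro ⟨m, hm0, hm1, hadd, hinv⟩
  have hmono : ∀ s t : Set GG, s ⊆ t → m s ≤ m t := by
    intro s t hst
    have h := hadd s (t \ s) disjoint_sdiff_self_right
    rw [Set.union_sdiff_cancel hst] at h
    have := hm0 (t \ s)
    linarith
  set P : Set GG := {p | 0 < xc p.1 * yc p.1} with hP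
  set N : Set GG := {p | xc p.1 * yc p.1 < 0} with hN
  have hT : (fun x => ((TT, 1) : GG) * x) '' P ⊆ P := by
    rintro _ ⟨p, hp, rfl⟩
    change 0 < xc (TT * p.1) * yc (TT * p.1)
    rw [xc_T, yc_T]
    have h1 : 0 < xc p.1 * yc p.1 := hp
    have h2 := mul_self_nonneg (yc p.1)
    nlinarith
  have hL : (fun x => ((LL, 1) : GG) * x) '' P ⊆ P := by
    rintro _ ⟨p, hp, rfl⟩
    change 0 < xc (LL * p.1) * yc (LL * p.1)
    rw [xc_L, yc_L]
    have h1 : 0 < xc p.1 * yc p.1 := hp
    have h2 := mul_self_nonneg (xc p.1)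
    nlinarith
  have hdisj : Disjoint ((fun x => ((TT, 1) : GG) * x) '' P) ((fun x => ((LL, 1) : GG) * x) '' P) := by
    rw [Set.disjoint_left]
    rintro _ ⟨p, hp, rfl⟩ ⟨q, hq, hpq⟩
    have h1 : 0 < xc p.1 * yc p.1 := hp
    have h2 : 0 < xc q.1 * yc q.1 := hq
    have h3 : LL * q.1 = TT * p.1 := congrArg Prod.fst hpq
    have h4 : xc q.1 = xc p.1 + yc p.1 := by rw [← xc_L, h3, xc_T]
    have h5 : xc q.1 + yc q.1 = yc p.1 := by rw [← yc_L, h3, yc_T]
    have h6 : yc q.1 = - xc p.1 := by linarith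
    rw [h4, h6] at h2
    have h7 := mul_self_nonneg (xc p.1)
    nlinarith
  have hP0 : m P ≤ 0 := by
    have h := hadd _ _ hdisj
    rw [hinv, hinv] at h
    have h2 := hmono _ _ (Set.union_subset hT hL)
    linarith
  have hNP : (fun x => ((SS, 1) : GG) * x) '' P = N := by
    ext p
    constructor
    · rintro ⟨q, hq, rfl⟩
      change xc (SS * q.1) * yc (SS * q.1) < 0
      rw [xc_S, yc_S]
      have h1 : 0 < xc q.1 * yc q.1 := hq
      linarith
    · intro hp
      refine ⟨((SS, 1) : GG)⁻¹ * p, ?_, mul_inv_cancel_left _ _⟩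
      have h0 : xc p.1 * yc p.1 < 0 := hp
      have h1 : SS * (SS⁻¹ * p.1) = p.1 := by simp
      have h2 := xc_S (SS⁻¹ * p.1)
      have h3 := yc_S (SS⁻¹ * p.1)
      rw [h1] at h2 h3
      change 0 < xc (((SS, 1) : GG)⁻¹ * p).1 * yc (((SS, 1) : GG)⁻¹ * p).1
      have h4 : (((SS, 1) : GG)⁻¹ * p).1 = SS⁻¹ * p.1 := by simp
      rw [h4, ← h3]
      have h5 : yc (SS⁻¹ * p.1) = - xc p.1 := by linarith
      rw [h5]
      linarith
  have hN0 : m N ≤ 0 := by
    rw [← hNP, hinv]
    exact hP0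
  have huniv : (Set.univ : Set GG) = P ∪ N := by
    ext p
    simp only [Set.mem_univ, true_iff]
    rcases lt_trichotomy (xc p.1 * yc p.1) 0 with h | h | h
    · exact Or.inr h
    · exact absurd h (mul_ne_zero (xc_ne _) (yc_ne _))
    · exact Or.inl h
  have hPN : Disjoint P N := by
    rw [Set.disjoint_left]
    intro p hp hn
    have h1 : 0 < xc p.1 * yc p.1 := hp
    have h2 : xc p.1 * yc p.1 < 0 := hn
    linarith
  have h := hadd P N hPN
  rw [← huniv, hm1] at h
  linarith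

theorem innerAmenable : InnerAmenable GG := by
  classical
  let φ : ℕ → GG := fun n => (1, Multiplicative.ofAdd (n : ℤ))
  have hφ : Function.Injective φ := by
    intro a b h
    have := congrArg Prod.snd h
    simpa [φ] using this
  let U : Ultrafilter ℕ := Filter.hyperfilter ℕ
  refine ⟨fun s => if φ ⁻¹' s ∈ U then 1 else 0, ?_, ?_, ?_, ?_, ?_⟩
  · intro s
    dsimp only
    split_ifs <;> norm_num
  · have h : φ ⁻¹' Set.univ ∈ U := by
      rw [Set.preimage_univ]
      exact Filter.univ_mem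
    simp only [h, if_true]
  · intro s t hst
    have hd : Disjoint (φ ⁻¹' s) (φ ⁻¹' t) := Disjoint.preimage φ hst
    dsimp only
    rw [Set.preimage_union, Ultrafilter.union_mem_iff]
    by_cases h1 : φ ⁻¹' s ∈ U <;> by_cases h2 : φ ⁻¹' t ∈ U
    · exfalso
      have h3 := Filter.inter_mem h1 h2
      rw [Set.disjoint_iff_inter_eq_empty.mp hd] at h3
      exact Ultrafilter.empty_notMem h3
    · simp [h1, h2]
    · simp [h1, h2]
    · simp [h1, h2]
  · intro g s
    have h : φ ⁻¹' ((fun x => g * x * g⁻¹) '' s) = φ ⁻¹' s := by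
      ext n
      constructor
      · rintro ⟨x, hx, hxn⟩
        have h1 : x = φ n := by
          have h2 : x = g⁻¹ * φ n * g := by
            rw [← hxn]
            group
          rw [h2]
          ext1
          · simp [φ]
          · simp [φ, mul_comm]
        change φ n ∈ s
        rw [← h1]
        exact hx
      · intro hn
        refine ⟨φ n, hn, ?_⟩
        ext1
        · simp [φ]
        · simp [φ, mul_comm]
    dsimp only
    rw [h]
  · intro s hs
    have h1 : (φ ⁻¹' s).Finite := hs.preimage hφ.injOn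
    have h2 : φ ⁻¹' s ∉ U := Filter.notMem_hyperfilter_of_finite h1
    simp [h2]

theorem gen (K : Subgroup SL2) (h1 : SS ∈ K) (h2 : SS * TT ∈ K) : K = ⊤ := by
  have hT : TT ∈ K := by
    have := K.mul_mem (K.inv_mem h1) h2
    simpa using this
  have hS' : (ModularGroup.S : SL2) = SS := by
    ext i j
    fin_cases i <;> fin_cases j <;> simp [ModularGroup.S, SS]
  have hT' : (ModularGroup.T : SL2) = TT := by
    ext i j
    fin_cases i <;> fin_cases j <;> simp [ModularGroup.T, TT]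
  rw [eq_top_iff, ← SpecialLinearGroup.SL2Z_generators, Subgroup.closure_le]
  rintro x (hx | hx)
  · rw [hx, hS']; exact h1
  · rw [Set.mem_singleton_iff.mp hx, hT']; exact hT

theorem SS_pow : SS ^ 4 = 1 := by
  ext i j
  fin_cases i <;> fin_cases j <;>
    simp [SS, pow_succ, Matrix.mul_apply, Fin.sum_univ_two]

theorem ST_pow : (SS * TT) ^ 6 = 1 := by
  ext i j
  fin_cases i <;> fin_cases j <;>
    simp [SS, TT, pow_succ, Matrix.mul_apply, Fin.sum_univ_two]

theorem TT_pow (n : ℕ) : (TT ^ n).1 = !![1, (n : ℤ); 0, 1] := by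
  induction n with
  | zero =>
    ext i j
    fin_cases i <;> fin_cases j <;> simp
  | succ n ih =>
    have h : (TT ^ (n + 1)).1 = (TT ^ n).1 * TT.1 := by
      rw [pow_succ]
      rfl
    rw [h, ih]
    ext i j
    fin_cases i <;> fin_cases j <;> simp [TT, Matrix.mul_apply, Fin.sum_univ_two, add_comm]

instance : Infinite SL2 := by
  refine Infinite.of_injective (fun n : ℕ => TT ^ n) ?_
  intro a b h
  have h1 : (TT ^ a).1 0 1 = (TT ^ b).1 0 1 := by
    rw [show TT ^ a = TT ^ b from h]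
  rw [TT_pow, TT_pow] at h1
  simpa using h1

end Pool.Agent.R237.WM
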