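import Pool.Agent.R237.WM.Defs
import Pool.Agent.R237.WM.Alg
import Pool.Agent.R237.WM.SL2

set_option autoImplicit false

namespace Pool.Agent.R237.WM

open MonoidAlgebra

section gen
variable {G : Type} [Group G]

theorem act_def (f : MonoidAlgebra ℤ G) (g : G) (m : PMod f) :
    act f g m = single g (1 : ℤ) • m := rfl

theorem act_one (f : MonoidAlgebra ℤ G) (m : PMod f) : act f 1 m = m := by
  rw [act_def, ← one_def, one_smul]

theorem act_mul (f : MonoidAlgebra ℤ G) (g h : G) (m : PMod f) :
    act f (g * h) m = act f g (act f h m) := by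
  rw [act_def, act_def, act_def, smul_smul, single_mul_single, one_mul]

theorem act_add (f : MonoidAlgebra ℤ G) (g : G) (a b : PMod f) :
    act f g (a + b) = act f g a + act f g b := map_add _ _ _

theorem act_sub (f : MonoidAlgebra ℤ G) (g : G) (a b : PMod f) :
    act f g (a - b) = act f g a - act f g b := map_sub _ _ _

theorem act_zero (f : MonoidAlgebra ℤ G) (g : G) : act f g (0 : PMod f) = 0 := map_zero _

theorem act_neg (f : MonoidAlgebra ℤ G) (g : G) (a : PMod f) :
    act f g (-a) = - act f g a := map_neg _ _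

end gen

section
variable {H : Type} [Group H] (f : MonoidAlgebra ℤ H)

/-- the generator of ℤ -/
def tt (H : Type) [Group H] (n : ℤ) : H × Multiplicative ℤ := (1, Multiplicative.ofAdd n)

theorem tt_add (a b : ℤ) : tt H (a + b) = tt H a * tt H b := by
  simp [tt]

theorem tt_zero : tt H 0 = 1 := rfl

theorem fixed_eq_zero {k : ℤ} (hk : k ≠ 0) (m : PMod (iota H f))
    (hm : act (iota H f) (tt H k) m = m) : m = 0 := by
  obtain ⟨v, rfl⟩ := Submodule.Quotient.mk_surjective
    (Submodule.span (MonoidAlgebra ℤ (H × Multiplicative ℤ)) {iota H f}) m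
  have h1 : Submodule.Quotient.mk (p := Submodule.span _ {iota H f})
      (single (tt H k) (1 : ℤ) * v) = Submodule.Quotient.mk v := hm
  rw [Submodule.Quotient.eq] at h1
  refine (Submodule.Quotient.mk_eq_zero _).mpr ?_
  refine mem_of_shift (k := Multiplicative.ofAdd k) ?_ v h1
  intro h
  apply hk
  simpa using h

/-- The affine permutation `m ↦ t m + w`. -/
noncomputable def alpha (w : PMod (iota H f)) : Equiv.Perm (PMod (iota H f)) where
  toFun m := act (iota H f) (tt H 1) m + w
  invFun m := act (iota H f) (tt H (-1)) (m - w)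
  left_inv m := by
    dsimp only
    rw [add_sub_cancel_right, ← act_mul, ← tt_add]
    simp [tt_zero, act_one]
  right_inv m := by
    dsimp only
    rw [← act_mul, ← tt_add]
    simp [tt_zero, act_one]

theorem alpha_apply (w m : PMod (iota H f)) :
    alpha f w m = act (iota H f) (tt H 1) m + w := rfl

theorem alpha_symm_apply (w m : PMod (iota H f)) :
    (alpha f w)⁻¹ m = act (iota H f) (tt H (-1)) (m - w) := rfl

theorem alpha_zpow (w m : PMod (iota H f)) (n : ℤ) :
    (alpha f w ^ n) m = act (iota H f) (tt H n) m + (alpha f w ^ n) 0 := by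
  induction n using Int.induction_on with
  | zero => simp [tt_zero, act_one]
  | succ n ih =>
    have h : ∀ x, (alpha f w ^ ((n : ℤ) + 1)) x = alpha f w ((alpha f w ^ (n : ℤ)) x) := by
      intro x
      rw [add_comm, zpow_add, zpow_one]
      rfl
    rw [h, h, ih, alpha_apply, alpha_apply, act_add, ← act_mul, ← tt_add, add_comm (1 : ℤ)]
    abel
  | pred n ih =>
    have h : ∀ x, (alpha f w ^ (-(n : ℤ) - 1)) x = (alpha f w)⁻¹ ((alpha f w ^ (-(n : ℤ))) x) := by
      intro x
      have h0 : (-(n : ℤ) - 1) = (-1) + (-(n : ℤ)) := by ring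
      rw [h0, zpow_add, zpow_neg_one]
      rfl
    rw [h, h, ih, alpha_symm_apply, alpha_symm_apply]
    have h0 : (-(n : ℤ) - 1) = (-1) + (-(n : ℤ)) := by ring
    rw [h0, tt_add, act_mul, ← act_add]
    congr 1
    abel

theorem alpha_commute (w : PMod (iota H f)) (g : H)
    (hg : act (iota H f) (g, 1) w = w) (n : ℤ) :
    act (iota H f) (g, 1) ((alpha f w ^ n) 0) = (alpha f w ^ n) 0 := by
  have hc : ∀ (k : ℤ) (m : PMod (iota H f)), act (iota H f) (g, 1) (act (iota H f) (tt H k) m) =
      act (iota H f) (tt H k) (act (iota H f) (g, 1) m) := by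
    intro k m
    rw [← act_mul, ← act_mul]
    congr 1
    simp [tt]
  induction n using Int.induction_on with
  | zero => simp [act_zero]
  | succ n ih =>
    have h : (alpha f w ^ ((n : ℤ) + 1)) 0 = alpha f w ((alpha f w ^ (n : ℤ)) 0) := by
      rw [add_comm, zpow_add, zpow_one]
      rfl
    rw [h, alpha_apply, act_add, hc, ih, hg]
  | pred n ih =>
    have h : (alpha f w ^ (-(n : ℤ) - 1)) 0 = (alpha f w)⁻¹ ((alpha f w ^ (-(n : ℤ))) 0) := by
      have h0 : (-(n : ℤ) - 1) = (-1) + (-(n : ℤ)) := by ring
      rw [h0, zpow_add, zpow_neg_one]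
      rfl
    rw [h, alpha_symm_apply, hc, act_sub, ih, hg]

/-- The cocycle. -/
noncomputable def coc (w : PMod (iota H f)) (g : H × Multiplicative ℤ) : PMod (iota H f) :=
  (alpha f w ^ (Multiplicative.toAdd g.2)) 0

theorem coc_mul (w : PMod (iota H f)) (hw : ∀ g : H, act (iota H f) (g, 1) w = w)
    (a b : H × Multiplicative ℤ) :
    coc f w (a * b) = coc f w a + act (iota H f) a (coc f w b) := by
  have h1 : coc f w (a * b) = (alpha f w ^ (Multiplicative.toAdd a.2))
      ((alpha f w ^ (Multiplicative.toAdd b.2)) 0) := by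
    rw [coc, Prod.snd_mul, toAdd_mul, zpow_add]
    rfl
  have h2 : a = tt H (Multiplicative.toAdd a.2) * (a.1, 1) := by
    simp [tt]
  have h3 : act (iota H f) a (coc f w b) =
      act (iota H f) (tt H (Multiplicative.toAdd a.2)) (coc f w b) := by
    conv_lhs => rw [h2]
    rw [act_mul]
    congr 1
    exact alpha_commute f w a.1 (hw a.1) _
  rw [h1, h3, alpha_zpow, add_comm]
  rfl

theorem coc_tt (w : PMod (iota H f)) : coc f w (tt H 1) = w := by
  have h : coc f w (tt H 1) = alpha f w 0 := by
    simp [coc, tt]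
  rw [h, alpha_apply, act_zero, zero_add]

theorem alpha_no_fixed (w : PMod (iota H f))
    (hw : ∀ u : PMod (iota H f), w ≠ act (iota H f) (tt H 1) u - u) {k : ℤ} (hk : k ≠ 0)
    (m : PMod (iota H f)) : (alpha f w ^ k) m ≠ m := by
  intro h
  have h1 : (alpha f w ^ k) (alpha f w m) = alpha f w m := by
    have : (alpha f w ^ k) (alpha f w m) = alpha f w ((alpha f w ^ k) m) := by
      have h2 : alpha f w ^ k * alpha f w = alpha f w * alpha f w ^ k :=
        (Commute.refl (alpha f w)).zpow_left k
      exact DFunLike.congr_fun h2 m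
    rw [this, h]
  have h2 : act (iota H f) (tt H k) (alpha f w m - m) = alpha f w m - m := by
    rw [alpha_zpow] at h h1
    rw [act_sub]
    calc act (iota H f) (tt H k) (alpha f w m) - act (iota H f) (tt H k) m
        = (act (iota H f) (tt H k) (alpha f w m) + (alpha f w ^ k) 0) -
          (act (iota H f) (tt H k) m + (alpha f w ^ k) 0) := by abel
      _ = alpha f w m - m := by rw [h1, h]
  have h3 := fixed_eq_zero f hk _ h2
  rw [alpha_apply] at h3
  apply hw (-m)
  rw [act_neg]
  have h4 : act (iota H f) (tt H 1) m + w = m := sub_eq_zero.mp h3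
  calc w = m - act (iota H f) (tt H 1) m := eq_sub_of_add_eq' h4
    _ = - act (iota H f) (tt H 1) m - -m := by abel

end

end Pool.Agent.R237.WM
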