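import Mathlib

set_option autoImplicit false

namespace Pool.Agent.R237.WM

open MeasureTheory Topology

/-- `G` is amenable: there is a finitely additive probability measure defined on all subsets of `G`
which is invariant under left translations. -/
def Amenable (G : Type) [Group G] : Prop :=
  ∃ m : Set G → ℝ, (∀ s, 0 ≤ m s) ∧ m Set.univ = 1 ∧
    (∀ s t, Disjoint s t → m (s ∪ t) = m s + m t) ∧
    ∀ (g : G) (s : Set G), m ((fun x => g * x) '' s) = m s

/-- `G` is inner amenable: there is a finitely additive probability measure defined on all subsets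
of `G` which is invariant under all conjugations and vanishes on finite sets. -/
def InnerAmenable (G : Type) [Group G] : Prop :=
  ∃ m : Set G → ℝ, (∀ s, 0 ≤ m s) ∧ m Set.univ = 1 ∧
    (∀ s t, Disjoint s t → m (s ∪ t) = m s + m t) ∧
    (∀ (g : G) (s : Set G), m ((fun x => g * x * g⁻¹) '' s) = m s) ∧
    ∀ s : Set G, s.Finite → m s = 0

section

variable {G : Type} [Group G]

/-- The left module `ZG / ZG f`. -/
def PMod (f : MonoidAlgebra ℤ G) : Type :=
  MonoidAlgebra ℤ G ⧸ Submodule.span (MonoidAlgebra ℤ G) {f}

noncomputable instance (f : MonoidAlgebra ℤ G) : AddCommGroup (PMod f) :=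
  Submodule.Quotient.addCommGroup (Submodule.span (MonoidAlgebra ℤ G) {f})

noncomputable instance (f : MonoidAlgebra ℤ G) : Module (MonoidAlgebra ℤ G) (PMod f) :=
  Submodule.Quotient.module (Submodule.span (MonoidAlgebra ℤ G) {f})

/-- The action of `G` on `ZG / ZG f` by additive automorphisms (multiplication by `g`). -/
noncomputable def act (f : MonoidAlgebra ℤ G) (g : G) : PMod f →+ PMod f where
  toFun m := MonoidAlgebra.single g (1 : ℤ) • m
  map_zero' := smul_zero _
  map_add' := smul_add _

end

/-- The homomorphisms from `M` to the circle, as a subgroup of `M → Circle`. -/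
def DualS (M : Type) [AddCommGroup M] : Subgroup (M → Circle) where
  carrier := {x | ∀ a b, x (a + b) = x a * x b}
  mul_mem' := by
    intro x y hx hy a b
    simp only [Pi.mul_apply]
    rw [hx a b, hy a b]
    exact mul_mul_mul_comm _ _ _ _
  one_mem' := by
    intro a b
    simp
  inv_mem' := by
    intro x hx a b
    simp only [Pi.inv_apply]
    rw [hx a b, mul_inv]

/-- The Pontryagin dual of the discrete group `M`: all homomorphisms from `M` to the circle,
with the topology of pointwise convergence (the subspace topology of the product `M → Circle`). -/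
def Dual (M : Type) [AddCommGroup M] : Type := DualS M

section
variable (M : Type) [AddCommGroup M]

noncomputable instance : CommGroup (Dual M) := (DualS M).toCommGroup

noncomputable instance : TopologicalSpace (Dual M) := instTopologicalSpaceSubtype

instance : IsTopologicalGroup (Dual M) := inferInstanceAs (IsTopologicalGroup (DualS M))

instance : T2Space (Dual M) := inferInstanceAs (T2Space (DualS M))

noncomputable instance : MeasurableSpace (Dual M) := borel _

instance : BorelSpace (Dual M) := ⟨rfl⟩

theorem isClosed_dual : IsClosed ((DualS M : Subgroup (M → Circle)) : Set (M → Circle)) := by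
  have h : ((DualS M : Subgroup (M → Circle)) : Set (M → Circle)) =
      ⋂ a : M, ⋂ b : M, {x : M → Circle | x (a + b) = x a * x b} := by
    ext x
    simp only [Set.mem_iInter]
    exact Iff.rfl
  rw [h]
  refine isClosed_iInter fun a => isClosed_iInter fun b => ?_
  exact isClosed_eq (by fun_prop) (by fun_prop)

instance : CompactSpace (Dual M) :=
  isCompact_iff_compactSpace.mp (isClosed_dual M).isCompact

/-- The Haar probability measure of the dual of `M`. -/
noncomputable def haar : Measure (Dual M) :=
  Measure.haarMeasure ⊤

end

section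

variable {G M : Type} [Group G] [AddCommGroup M]

/-- The value of `x` at `m`. -/
def ev (x : Dual M) (m : M) : Circle := Subtype.val (p := fun y => y ∈ DualS M) x m

theorem ev_add (x : Dual M) (a b : M) : ev x (a + b) = ev x a * ev x b := x.2 a b

/-- The element of the dual given by a homomorphism. -/
def mkDual (y : M → Circle) (hy : ∀ a b, y (a + b) = y a * y b) : Dual M :=
  Subtype.mk (p := fun y => y ∈ DualS M) y hy

/-- The action on the dual of `M` given by an action `a` of `G` on `M` by additive maps:
`(g x)(m) = x(g⁻¹ m)`. -/
def dualAct (a : G → M →+ M) (g : G) (x : Dual M) : Dual M :=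
  mkDual (fun m => ev x (a g⁻¹ m)) (fun p q => by
    rw [map_add, ev_add])

/-- The action of `G` on the dual of `M` is weakly mixing: the diagonal action on
`Dual M × Dual M` is ergodic for the product of the Haar probability measures. -/
def WeaklyMixing (a : G → M →+ M) : Prop :=
  ∀ E : Set (Dual M × Dual M), MeasurableSet E →
    (∀ g : G, (fun p : Dual M × Dual M => (dualAct a g p.1, dualAct a g p.2)) ⁻¹' E
      =ᵐ[(haar M).prod (haar M)] E) →
    ((haar M).prod (haar M)) E = 0 ∨ ((haar M).prod (haar M)) E = 1

/-- `H¹(G, M) ≠ 0`: there is a 1-cocycle that is not a coboundary. -/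
def H1Nonzero (a : G → M →+ M) : Prop :=
  ∃ c : G → M, (∀ g h : G, c (g * h) = c g + a g (c h)) ∧
    ¬ ∃ u : M, ∀ g : G, c g = a g u - u

/-- `H¹(G ↷ Dual M; 𝕋) ≠ H¹(G, 𝕋)`: there is a measurable 1-cocycle for the action of `G` on the
dual of `M` which is not cohomologous to a homomorphism `G → 𝕋`. -/
def NonTrivialCocycle (a : G → M →+ M) : Prop :=
  ∃ c : G → Dual M → Circle, (∀ g, Measurable (fun x => (c g x : ℂ))) ∧
    (∀ g h x, c (g * h) x = c g x * c h (dualAct a g⁻¹ x)) ∧
    ¬ ∃ (χ : G →* Circle) (b : Dual M → Circle), Measurable (fun x => (b x : ℂ)) ∧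
      ∀ g, ∀ᵐ x ∂(haar M), c g x = χ g * b (dualAct a g⁻¹ x) * (b x)⁻¹

end

end Pool.Agent.R237.WM
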