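import Mathlib

set_option autoImplicit false

namespace Pool.Agent.R237.WM

open MeasureTheory ContinuousMap Submodule
open scoped ComplexConjugate ENNReal

section
variable {K : Type} [TopologicalSpace K] [CompactSpace K] {I : Type} [AddCommGroup I]
  (χ : I → C(K, ℂ))

/-- star subalgebra generated by the characters -/
noncomputable def chSub (hstar : ∀ a x, χ (-a) x = conj (χ a x)) : StarSubalgebra ℂ C(K, ℂ) where
  toSubalgebra := Algebra.adjoin ℂ (Set.range χ)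
  star_mem' := by
    change Algebra.adjoin ℂ (Set.range χ) ≤ star (Algebra.adjoin ℂ (Set.range χ))
    refine Algebra.adjoin_le ?_
    rintro - ⟨n, rfl⟩
    exact Algebra.subset_adjoin ⟨-n, ContinuousMap.ext fun _ => hstar _ _⟩

theorem chSub_coe (h0 : ∀ x, χ 0 x = 1) (hmul : ∀ a b x, χ (a + b) x = χ a x * χ b x)
    (hstar : ∀ a x, χ (-a) x = conj (χ a x)) :
    Subalgebra.toSubmodule (chSub χ hstar).toSubalgebra = span ℂ (Set.range χ) := by
  apply Algebra.adjoin_eq_span_of_subset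
  refine Set.Subset.trans ?_ Submodule.subset_span
  intro x hx
  refine Submonoid.closure_induction (fun _ => id) ⟨0, ?_⟩ ?_ hx
  · ext1 z; exact h0 z
  · rintro - - - - ⟨m, rfl⟩ ⟨n, rfl⟩
    refine ⟨m + n, ?_⟩
    ext1 z
    exact hmul m n z

theorem span_dense [T2Space K] (h0 : ∀ x, χ 0 x = 1)
    (hmul : ∀ a b x, χ (a + b) x = χ a x * χ b x)
    (hstar : ∀ a x, χ (-a) x = conj (χ a x)) (hsep : ∀ x y : K, x ≠ y → ∃ a, χ a x ≠ χ a y) :
    (span ℂ (Set.range χ)).topologicalClosure = ⊤ := by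
  rw [← chSub_coe χ h0 hmul hstar]
  have h : (chSub χ hstar).topologicalClosure = ⊤ := by
    apply ContinuousMap.starSubalgebra_topologicalClosure_eq_top_of_separatesPoints
    intro x y hxy
    obtain ⟨a, ha⟩ := hsep x y hxy
    exact ⟨_, ⟨χ a, Algebra.subset_adjoin ⟨a, rfl⟩, rfl⟩, ha⟩
  exact congr_arg (Subalgebra.toSubmodule <| StarSubalgebra.toSubalgebra ·) h

variable [MeasurableSpace K] [BorelSpace K] (μ : Measure K) [IsProbabilityMeasure μ]

theorem orthonormal_ch (h0 : ∀ x, χ 0 x = 1)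
    (hmul : ∀ a b x, χ (a + b) x = χ a x * χ b x)
    (hstar : ∀ a x, χ (-a) x = conj (χ a x)) (hint : ∀ a, a ≠ 0 → ∫ x, χ a x ∂μ = 0) :
    Orthonormal ℂ (fun a => toLp 2 μ ℂ (χ a) : I → Lp ℂ 2 μ) := by
  classical
  rw [orthonormal_iff_ite]
  intro i j
  rw [ContinuousMap.inner_toLp μ (χ i) (χ j)]
  have h1 : ∀ x, χ j x * conj (χ i x) = χ (j + -i) x := by
    intro x
    rw [hmul, hstar]
  simp_rw [h1]
  split_ifs with h
  · subst h
    simp [h0]
  · apply hint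
    intro h2
    apply h
    rw [add_neg_eq_zero] at h2
    exact h2.symm

theorem inner_ch (h : K → ℂ) (hh : MemLp h 2 μ) (g : C(K, ℂ)) :
    inner ℂ (toLp 2 μ ℂ g : Lp ℂ 2 μ) (hh.toLp h) = ∫ x, h x * conj (g x) ∂μ := by
  apply integral_congr_ae
  have hf_ae := g.coeFn_toLp (p := 2) (𝕜 := ℂ) μ
  have hg_ae := hh.coeFn_toLp
  filter_upwards [hf_ae, hg_ae] with x hf hg
  rw [hf, hg]
  simp

theorem ae_zero_of_ortho [T2Space K] [μ.WeaklyRegular] (h0 : ∀ x, χ 0 x = 1)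
    (hmul : ∀ a b x, χ (a + b) x = χ a x * χ b x)
    (hstar : ∀ a x, χ (-a) x = conj (χ a x)) (hsep : ∀ x y : K, x ≠ y → ∃ a, χ a x ≠ χ a y)
    (h : K → ℂ) (hh : MemLp h 2 μ) (hz : ∀ a, ∫ x, h x * conj (χ a x) ∂μ = 0) :
    h =ᵐ[μ] 0 := by
  have hd : (span ℂ (Set.range (fun a => (toLp 2 μ ℂ (χ a) : Lp ℂ 2 μ)))).topologicalClosure =
      ⊤ := by
    convert!
      (ContinuousMap.toLp_denseRange ℂ μ ℂ (p := 2) (by norm_num)).topologicalClosure_map_submodule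
        (span_dense χ h0 hmul hstar hsep)
    rw [map_span]
    rw [← Set.range_comp]
    rfl
  have hperp : (hh.toLp h : Lp ℂ 2 μ) ∈
      (span ℂ (Set.range (fun a => (toLp 2 μ ℂ (χ a) : Lp ℂ 2 μ))))ᗮ := by
    rw [Submodule.mem_orthogonal]
    intro u hu
    induction hu using Submodule.span_induction with
    | mem x hx =>
      obtain ⟨a, rfl⟩ := hx
      rw [inner_ch]
      exact hz a
    | zero => exact inner_zero_left _
    | add x y _ _ hx hy => rw [inner_add_left, hx, hy, add_zero]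
    | smul c x _ hx => rw [inner_smul_left, hx, mul_zero]
  rw [Submodule.topologicalClosure_eq_top_iff.mp hd, Submodule.mem_bot] at hperp
  exact (MemLp.toLp_eq_toLp_iff hh (MemLp.zero' (ε := ℂ))).mp (by rw [hperp]; rfl)

theorem coeff_zero_of_orbit (h0 : ∀ x, χ 0 x = 1)
    (hmul : ∀ a b x, χ (a + b) x = χ a x * χ b x)
    (hstar : ∀ a x, χ (-a) x = conj (χ a x)) (hint : ∀ a, a ≠ 0 → ∫ x, χ a x ∂μ = 0)
    (h : K → ℂ) (hh : MemLp h 2 μ) (a : ℕ → I) (hinj : Function.Injective a)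
    (hc : ∀ n, ‖∫ x, h x * conj (χ (a n) x) ∂μ‖ = ‖∫ x, h x * conj (χ (a 0) x) ∂μ‖) :
    ∫ x, h x * conj (χ (a 0) x) ∂μ = 0 := by
  have ho : Orthonormal ℂ (fun n => toLp 2 μ ℂ (χ (a n)) : ℕ → Lp ℂ 2 μ) :=
    (orthonormal_ch χ μ h0 hmul hstar hint).comp a hinj
  have hs := ho.inner_products_summable (hh.toLp h)
  have h1 : ∀ n, ‖inner ℂ (toLp 2 μ ℂ (χ (a n)) : Lp ℂ 2 μ) (hh.toLp h)‖ ^ 2 =
      ‖∫ x, h x * conj (χ (a 0) x) ∂μ‖ ^ 2 := by
    intro n
    rw [inner_ch, hc]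
  simp_rw [h1] at hs
  have h2 : ‖∫ x, h x * conj (χ (a 0) x) ∂μ‖ ^ 2 = 0 :=
    tendsto_nhds_unique tendsto_const_nhds hs.tendsto_atTop_zero
  have h3 := pow_eq_zero_iff (two_ne_zero) |>.mp h2
  exact norm_eq_zero.mp h3

end

end Pool.Agent.R237.WM
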