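import Pool.Agent.R237.WM.Defs
import Pool.Agent.R237.WM.Four

set_option autoImplicit false

namespace Pool.Agent.R237.WM

open MeasureTheory
open scoped ComplexConjugate

section
variable (M : Type) [AddCommGroup M]

instance : (haar M).IsHaarMeasure := by
  unfold haar
  infer_instance

instance : IsProbabilityMeasure (haar M) := by
  constructor
  have h := Measure.haarMeasure_self (K₀ := (⊤ : TopologicalSpace.PositiveCompacts (Dual M)))
  exact h

variable {M}

theorem continuous_ev (m : M) : Continuous (fun x : Dual M => ev x m) :=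
  (continuous_apply m).comp (continuous_subtype_val (p := fun y => y ∈ DualS M))

theorem ev_mul (x y : Dual M) (m : M) : ev (x * y) m = ev x m * ev y m := rfl

theorem ev_ext (x y : Dual M) (h : ∀ m, ev x m = ev y m) : x = y :=
  Subtype.ext (p := fun y => y ∈ DualS M) (funext h)

theorem ev_mk (y : M → Circle) (hy : ∀ a b, y (a + b) = y a * y b) (m : M) :
    ev (mkDual y hy) m = y m := rfl

/-- The character of the dual given by `m`. -/
noncomputable def chi (m : M) : C(Dual M, ℂ) :=
  ⟨fun x => ((ev x m : Circle) : ℂ), (continuous_subtype_val (X := ℂ)).comp (continuous_ev m)⟩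

theorem chi_apply (m : M) (x : Dual M) : chi m x = ((ev x m : Circle) : ℂ) := rfl

theorem dual_zero (x : Dual M) : ev x 0 = 1 := by
  have h := ev_add x 0 0
  rw [add_zero] at h
  exact (mul_eq_left.mp h.symm)

theorem dual_neg (x : Dual M) (m : M) : ev x (-m) = (ev x m)⁻¹ := by
  have h := ev_add x (-m) m
  rw [neg_add_cancel, dual_zero] at h
  exact eq_inv_of_mul_eq_one_left h.symm

theorem chi_zero (x : Dual M) : chi (0 : M) x = 1 := by
  rw [chi_apply, dual_zero, Circle.coe_one]

theorem chi_add (a b : M) (x : Dual M) : chi (a + b) x = chi a x * chi b x := by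
  rw [chi_apply, ev_add, Circle.coe_mul]
  rfl

theorem chi_neg (a : M) (x : Dual M) : chi (-a) x = conj (chi a x) := by
  rw [chi_apply, dual_neg, Circle.coe_inv_eq_conj]
  rfl

theorem chi_sep (x y : Dual M) (h : x ≠ y) : ∃ a : M, chi a x ≠ chi a y := by
  by_contra hcon
  push Not at hcon
  apply h
  apply ev_ext
  intro m
  exact Subtype.ext (hcon m)

/-- the map `ℚ/ℤ → Circle` -/
noncomputable def qCircle : AddCircle (1 : ℚ) →+ Additive Circle :=
  QuotientAddGroup.lift _
    { toFun := fun q : ℚ => Additive.ofMul (Circle.exp (2 * Real.pi * (q : ℝ)))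
      map_zero' := by simp
      map_add' := by
        intro a b
        rw [← ofMul_mul, ← Circle.exp_add]
        congr 2
        push_cast
        ring }
    (by
      intro x hx
      obtain ⟨n, rfl⟩ := AddSubgroup.mem_zmultiples_iff.mp hx
      rw [AddMonoidHom.mem_ker]
      change Additive.ofMul (Circle.exp (2 * Real.pi * ((n • (1 : ℚ) : ℚ) : ℝ))) = 0
      rw [ofMul_eq_zero]
      have : (2 * Real.pi * ((n • (1 : ℚ) : ℚ) : ℝ)) = n * (2 * Real.pi) := by
        rw [zsmul_one]
        push_cast
        ring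
      rw [this]
      exact Circle.exp_int_mul_two_pi n)

theorem qCircle_ne (q : AddCircle (1 : ℚ)) (hq : q ≠ 0) : (qCircle q).toMul ≠ 1 := by
  obtain ⟨r, rfl⟩ := QuotientAddGroup.mk_surjective q
  intro h
  change Circle.exp (2 * Real.pi * (r : ℝ)) = 1 at h
  rw [Circle.exp_eq_one] at h
  obtain ⟨n, hn⟩ := h
  apply hq
  have h1 : (r : ℝ) = n := by
    have := Real.pi_pos
    have h2 : (2 * Real.pi) * (r : ℝ) = (2 * Real.pi) * n := by rw [hn]; ring
    exact mul_left_cancel₀ (by positivity) h2
  have h2 : r = n := by exact_mod_cast h1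
  rw [QuotientAddGroup.eq_zero_iff, AddSubgroup.mem_zmultiples_iff]
  exact ⟨n, by rw [h2, zsmul_one]⟩

theorem exists_dual_ne (m : M) (hm : m ≠ 0) : ∃ x : Dual M, ev x m ≠ 1 := by
  obtain ⟨c, hc⟩ := CharacterModule.exists_character_apply_ne_zero_of_ne_zero hm
  refine ⟨mkDual (fun a => (qCircle (c a)).toMul) ?_, ?_⟩
  · intro a b
    change (qCircle (c (a + b))).toMul = (qCircle (c a)).toMul * (qCircle (c b)).toMul
    rw [map_add, map_add, toMul_add]
  · exact qCircle_ne _ hc

theorem integral_chi (m : M) (hm : m ≠ 0) : ∫ x, chi m x ∂(haar M) = 0 := by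
  obtain ⟨y, hy⟩ := exists_dual_ne m hm
  have h := integral_mul_left_eq_self (μ := haar M) (fun x => chi m x) y
  have h1 : ∀ x : Dual M, chi m (y * x) = ((ev y m : Circle) : ℂ) * chi m x := by
    intro x
    rw [chi_apply, chi_apply, ev_mul, Circle.coe_mul]
  simp_rw [h1] at h
  rw [integral_const_mul] at h
  have h2 : (((ev y m : Circle) : ℂ) - 1) * ∫ x, chi m x ∂(haar M) = 0 := by
    rw [sub_mul, one_mul, h, sub_self]
  rcases mul_eq_zero.mp h2 with h3 | h3
  · exfalso
    apply hy
    rw [sub_eq_zero] at h3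
    ext
    rw [h3, Circle.coe_one]
  · exact h3

end

section
variable {M : Type} [AddCommGroup M]

/-- characters of the square -/
noncomputable def chi2 (m : M × M) : C(Dual M × Dual M, ℂ) :=
  ⟨fun p => chi m.1 p.1 * chi m.2 p.2, by fun_prop⟩

theorem chi2_apply (m : M × M) (p : Dual M × Dual M) :
    chi2 m p = chi m.1 p.1 * chi m.2 p.2 := rfl

theorem chi2_zero (p : Dual M × Dual M) : chi2 (0 : M × M) p = 1 := by
  rw [chi2_apply, Prod.fst_zero, Prod.snd_zero, chi_zero, chi_zero, one_mul]

theorem chi2_add (a b : M × M) (p : Dual M × Dual M) :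
    chi2 (a + b) p = chi2 a p * chi2 b p := by
  rw [chi2_apply, chi2_apply, chi2_apply, Prod.fst_add, Prod.snd_add, chi_add, chi_add]
  ring

theorem chi2_neg (a : M × M) (p : Dual M × Dual M) : chi2 (-a) p = conj (chi2 a p) := by
  rw [chi2_apply, chi2_apply, Prod.fst_neg, Prod.snd_neg, chi_neg, chi_neg, map_mul]

theorem chi2_sep (x y : Dual M × Dual M) (h : x ≠ y) : ∃ a : M × M, chi2 a x ≠ chi2 a y := by
  by_cases h1 : x.1 = y.1
  · have h2 : x.2 ≠ y.2 := by
      intro h2
      exact h (Prod.ext h1 h2)
    obtain ⟨a, ha⟩ := chi_sep _ _ h2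
    refine ⟨(0, a), ?_⟩
    rw [chi2_apply, chi2_apply, chi_zero, chi_zero, one_mul, one_mul]
    exact ha
  · obtain ⟨a, ha⟩ := chi_sep _ _ h1
    refine ⟨(a, 0), ?_⟩
    rw [chi2_apply, chi2_apply, chi_zero, chi_zero, mul_one, mul_one]
    exact ha

theorem integral_chi2 (m : M × M) (hm : m ≠ 0) :
    ∫ p, chi2 m p ∂((haar M).prod (haar M)) = 0 := by
  simp_rw [chi2_apply]
  rw [integral_prod_mul (fun x => chi m.1 x) (fun x => chi m.2 x)]
  by_cases h : m.1 = 0
  · have h2 : m.2 ≠ 0 := fun h2 => hm (Prod.ext h h2)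
    rw [integral_chi _ h2, mul_zero]
  · rw [integral_chi _ h, zero_mul]

end

section
variable {M : Type} [AddCommGroup M] [Countable M]

instance : SecondCountableTopology (Dual M) := by
  have h0 : SecondCountableTopology Circle :=
    TopologicalSpace.Subtype.secondCountableTopology _
  have h : SecondCountableTopology (M → Circle) := inferInstance
  exact TopologicalSpace.Subtype.secondCountableTopology _

example : BorelSpace (Dual M × Dual M) := inferInstance
example : T2Space (Dual M × Dual M) := inferInstance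
example : ((haar M).prod (haar M)).WeaklyRegular := inferInstance
example : (haar M).WeaklyRegular := inferInstance

end

end Pool.Agent.R237.WM
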