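import Pool.Agent.R237.WM.Coc

set_option autoImplicit false

namespace Pool.Agent.R237.WM

open MonoidAlgebra

/-- group element in the group ring -/
noncomputable def e (g : SL2) : MonoidAlgebra ℤ SL2 := single g 1

theorem e_mul (g h : SL2) : e (g * h) = e g * e h := by
  rw [e, e, e, single_mul_single, one_mul]

theorem e_one : e 1 = 1 := rfl

theorem e_pow (g : SL2) (n : ℕ) : e (g ^ n) = e g ^ n := by
  induction n with
  | zero => simp [e_one]
  | succ n ih => rw [pow_succ, e_mul, ih, pow_succ]

/-- `N_A` -/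
noncomputable def nA : MonoidAlgebra ℤ SL2 := ∑ i ∈ Finset.range 4, e (SS ^ i)
/-- `N_B` -/
noncomputable def nB : MonoidAlgebra ℤ SL2 := ∑ i ∈ Finset.range 6, e ((SS * TT) ^ i)
/-- `f₁` -/
noncomputable def f1 : MonoidAlgebra ℤ SL2 := nA - nB

theorem geom_right (g : SL2) (n : ℕ) (hg : g ^ n = 1) :
    (∑ i ∈ Finset.range n, e (g ^ i)) * e g = ∑ i ∈ Finset.range n, e (g ^ i) := by
  simp only [e_pow]
  have h := geom_sum_mul (e g) n
  rw [← e_pow, hg, e_one, sub_self, mul_sub, mul_one, sub_eq_zero] at h
  exact h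

theorem geom_left (g : SL2) (n : ℕ) (hg : g ^ n = 1) :
    e g * (∑ i ∈ Finset.range n, e (g ^ i)) = ∑ i ∈ Finset.range n, e (g ^ i) := by
  simp only [e_pow]
  have h := mul_geom_sum (e g) n
  rw [← e_pow, hg, e_one, sub_self, sub_mul, one_mul, sub_eq_zero] at h
  exact h

theorem zero_of_inv (z : MonoidAlgebra ℤ SL2) (h1 : z * e SS = z) (h2 : z * e (SS * TT) = z) :
    z = 0 := by
  have hall : ∀ g : SL2, z * e g = z := by
    let K : Subgroup SL2 :=
      { carrier := {g | z * e g = z}
        mul_mem' := by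
          intro a b ha hb
          change z * e (a * b) = z
          rw [e_mul, ← mul_assoc, show z * e a = z from ha, show z * e b = z from hb]
        one_mem' := by
          change z * e 1 = z
          rw [e_one, mul_one]
        inv_mem' := by
          intro a ha
          change z * e a⁻¹ = z
          have h3 : z * e a = z := ha
          calc z * e a⁻¹ = (z * e a) * e a⁻¹ := by rw [h3]
            _ = z * e (a * a⁻¹) := by rw [e_mul, mul_assoc]
            _ = z := by rw [mul_inv_cancel, e_one, mul_one] }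
    have hK : K = ⊤ := gen K h1 h2
    intro g
    have : g ∈ K := by rw [hK]; exact Subgroup.mem_top g
    exact this
  have hc : ∀ g : SL2, z.coeff g = z.coeff 1 := by
    intro g
    have h := congrArg (fun x => x.coeff g) (hall g)
    simp only [e, coeff_mul_single_apply, mul_one, mul_inv_cancel] at h
    exact h.symm
  by_contra hz
  have hne : z.coeff 1 ≠ 0 := by
    intro h
    apply hz
    ext g
    rw [hc g, h]
    rfl
  have hfin := z.coeff.support.finite_toSet
  have huniv : (↑z.coeff.support : Set SL2) = Set.univ := by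
    ext g
    simp [hc g, hne]
  rw [huniv] at hfin
  exact Set.infinite_univ hfin

/-- augmentation -/
noncomputable def aug : MonoidAlgebra ℤ SL2 →ₐ[ℤ] ℤ := MonoidAlgebra.lift ℤ ℤ SL2 1

theorem aug_e (g : SL2) : aug (e g) = 1 := by
  simp [aug, e]

theorem not_mem (y : MonoidAlgebra ℤ SL2) : y * f1 ≠ nA := by
  intro h
  have hz : y * nB = (y - 1) * nA := by
    rw [f1, mul_sub, sub_eq_iff_eq_add] at h
    rw [sub_mul, one_mul, h]
    abel
  have h0 : y * nB = 0 := by
    apply zero_of_inv
    · rw [hz, mul_assoc]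
      congr 1
      exact geom_right SS 4 SS_pow
    · rw [mul_assoc]
      congr 1
      exact geom_right (SS * TT) 6 ST_pow
  have hA : aug nA = 4 := by
    simp [nA, aug_e, map_sum]
  have hB : aug nB = 6 := by
    simp [nB, aug_e, map_sum]
  have h1 : aug y * 6 = 0 := by
    rw [← hB, ← map_mul, h0, map_zero]
  have h2 : (aug y - 1) * 4 = 0 := by
    rw [← hA, ← map_one aug, ← map_sub, ← map_mul, ← hz, h0, map_zero]
  omega

/-- The element `f`. -/
noncomputable def ff : MonoidAlgebra ℤ GG :=
  ∑ i ∈ Finset.range 4, single ((SS ^ i, 1) : GG) (1 : ℤ) -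
    ∑ i ∈ Finset.range 6, single (((SS * TT) ^ i, 1) : GG) (1 : ℤ)

theorem ff_eq : ff = iota SL2 f1 := by
  rw [f1, map_sub, nA, nB, map_sum, map_sum, ff]
  simp [e, iota_single]

/-- The invariant element. -/
noncomputable def ww : PMod (iota SL2 f1) :=
  Submodule.Quotient.mk (p := Submodule.span (MonoidAlgebra ℤ GG) {iota SL2 f1}) (iota SL2 nA)

theorem iota_e (g : SL2) : iota SL2 (e g) = single ((g, 1) : GG) 1 := iota_single g 1

theorem ww_inv (g : SL2) : act (iota SL2 f1) (g, 1) ww = ww := by
  have hS : act (iota SL2 f1) (SS, 1) ww = ww := by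
    have h : single ((SS, 1) : GG) (1 : ℤ) * iota SL2 nA = iota SL2 nA := by
      rw [← iota_e, ← map_mul]
      exact congrArg _ (geom_left SS 4 SS_pow)
    change Submodule.Quotient.mk (p := Submodule.span (MonoidAlgebra ℤ GG) {iota SL2 f1})
      (single ((SS, 1) : GG) (1 : ℤ) * iota SL2 nA) =
      Submodule.Quotient.mk (p := Submodule.span (MonoidAlgebra ℤ GG) {iota SL2 f1}) (iota SL2 nA)
    rw [h]
  have hT : act (iota SL2 f1) (SS * TT, 1) ww = ww := by
    change Submodule.Quotient.mk (p := Submodule.span (MonoidAlgebra ℤ GG) {iota SL2 f1})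
      (single ((SS * TT, 1) : GG) (1 : ℤ) * iota SL2 nA) =
      Submodule.Quotient.mk (p := Submodule.span (MonoidAlgebra ℤ GG) {iota SL2 f1}) (iota SL2 nA)
    rw [Submodule.Quotient.eq, Submodule.mem_span_singleton]
    refine ⟨iota SL2 (e (SS * TT) - 1), ?_⟩
    rw [smul_eq_mul, ← map_mul, ← iota_e, ← map_mul, ← map_sub]
    congr 1
    have h := geom_left (SS * TT) 6 ST_pow
    change e (SS * TT) * nB = nB at h
    rw [f1, sub_mul, mul_sub, h, one_mul]
    abel
  let K : Subgroup SL2 :=
    { carrier := {g | act (iota SL2 f1) (g, 1) ww = ww}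
      mul_mem' := by
        intro a b ha hb
        change act (iota SL2 f1) (a * b, 1) ww = ww
        have h : ((a * b, 1) : GG) = (a, 1) * (b, 1) := by simp
        rw [h, act_mul, show act (iota SL2 f1) (b, 1) ww = ww from hb]
        exact ha
      one_mem' := act_one _ _
      inv_mem' := by
        intro a ha
        change act (iota SL2 f1) (a⁻¹, 1) ww = ww
        have h : act (iota SL2 f1) (a, 1) ww = ww := ha
        nth_rw 1 [← h]
        rw [← act_mul]
        have h2 : ((a⁻¹, 1) : GG) * (a, 1) = 1 := by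
          rw [Prod.mk_mul_mk, inv_mul_cancel, one_mul]; rfl
        rw [h2, act_one] }
  have hK : K = ⊤ := gen K hS hT
  have : g ∈ K := by rw [hK]; exact Subgroup.mem_top g
  exact this

theorem ww_not (u : PMod (iota SL2 f1)) : ww ≠ act (iota SL2 f1) (tt SL2 1) u - u := by
  intro h
  obtain ⟨v, rfl⟩ := Submodule.Quotient.mk_surjective
    (Submodule.span (MonoidAlgebra ℤ GG) {iota SL2 f1}) u
  have h1 : Submodule.Quotient.mk (p := Submodule.span (MonoidAlgebra ℤ GG) {iota SL2 f1})
      (iota SL2 nA) =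
      Submodule.Quotient.mk (p := Submodule.span (MonoidAlgebra ℤ GG) {iota SL2 f1})
        (single (tt SL2 1) (1 : ℤ) * v - v) := h
  rw [Submodule.Quotient.eq, Submodule.mem_span_singleton] at h1
  obtain ⟨x, hx⟩ := h1
  have h2 := congrArg (proj SL2) hx
  rw [smul_eq_mul, map_mul, proj_iota, map_sub, proj_iota, map_sub, map_mul, proj_single] at h2
  have h3 : (single (tt SL2 1).1 (1 : ℤ) : MonoidAlgebra ℤ SL2) = 1 := rfl
  rw [h3, one_mul, sub_self, sub_zero] at h2
  exact not_mem _ h2

theorem h1nonzero : H1Nonzero (act ff) := by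
  rw [ff_eq]
  refine ⟨coc f1 ww, fun g h => coc_mul f1 ww ww_inv g h, ?_⟩
  rintro ⟨u, hu⟩
  have h := hu (tt SL2 1)
  rw [coc_tt] at h
  exact ww_not u h

end Pool.Agent.R237.WM
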