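import Pool.Agent.R237.WM.DualF
import Pool.Agent.R237.WM.Spec

set_option autoImplicit false

namespace Pool.Agent.R237.WM

open MeasureTheory
open scoped ComplexConjugate

section
variable {G : Type} [Group G] [Countable G] (f : MonoidAlgebra ℤ G)

instance : Countable (MonoidAlgebra ℤ G) := MonoidAlgebra.coeff_injective.countable

instance : Countable (PMod f) :=
  (Submodule.Quotient.mk_surjective (Submodule.span (MonoidAlgebra ℤ G) {f})).countable

theorem continuous_dualAct (g : G) : Continuous (dualAct (act f) g) := by
  have h : Continuous (fun x : Dual (PMod f) => (fun m => ev x (act f g⁻¹ m))) :=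
    continuous_pi fun m => continuous_ev _
  exact Continuous.subtype_mk (p := fun y => y ∈ DualS (PMod f)) h _

theorem ev_dualAct (g : G) (x : Dual (PMod f)) (m : PMod f) :
    ev (dualAct (act f) g x) m = ev x (act f g⁻¹ m) := rfl

/-- `dualAct` as a homomorphism -/
noncomputable def dualHom (g : G) : Dual (PMod f) →* Dual (PMod f) where
  toFun := dualAct (act f) g
  map_one' := rfl
  map_mul' _ _ := rfl

theorem dualAct_inv (g : G) (x : Dual (PMod f)) :
    dualAct (act f) g (dualAct (act f) g⁻¹ x) = x := by
  apply ev_ext
  intro m
  rw [ev_dualAct, ev_dualAct, ← act_mul, inv_inv, mul_inv_cancel, act_one]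

theorem mp_dualAct (g : G) :
    MeasurePreserving (dualAct (act f) g) (haar (PMod f)) (haar (PMod f)) := by
  have h : MeasurePreserving (dualHom f g) (haar (PMod f)) (haar (PMod f)) := by
    apply MonoidHom.measurePreserving
    · exact continuous_dualAct f g
    · intro x
      exact ⟨dualAct (act f) g⁻¹ x, dualAct_inv f g x⟩
    · rfl
  exact h

theorem chi_dualAct (g : G) (m : PMod f) (x : Dual (PMod f)) :
    chi m (dualAct (act f) g x) = chi (act f g⁻¹ m) x := rfl

theorem chi_dualAct' (g : G) (m : PMod f) (x : Dual (PMod f)) :
    chi (act f g m) (dualAct (act f) g x) = chi m x := by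
  rw [chi_dualAct, ← act_mul, inv_mul_cancel, act_one]

/-- diagonal action -/
noncomputable def diag (g : G) (p : Dual (PMod f) × Dual (PMod f)) :
    Dual (PMod f) × Dual (PMod f) := (dualAct (act f) g p.1, dualAct (act f) g p.2)

theorem mp_diag (g : G) : MeasurePreserving (diag f g) ((haar (PMod f)).prod (haar (PMod f)))
    ((haar (PMod f)).prod (haar (PMod f))) :=
  (mp_dualAct f g).prod (mp_dualAct f g)

end

theorem int_comp {K : Type} [MeasurableSpace K] {ν : Measure K} {T : K → K}
    (hmp : MeasurePreserving T ν ν) (g : K → ℂ) (hg : Measurable g) :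
    ∫ p, g (T p) ∂ν = ∫ p, g p ∂ν := by
  rw [← integral_map hmp.measurable.aemeasurable
    (by rw [hmp.map_eq]; exact hg.aestronglyMeasurable), hmp.map_eq]

section
variable {H : Type} [Group H] [Countable H] (f : MonoidAlgebra ℤ H)

theorem weaklyMixing_iota : WeaklyMixing (act (iota H f)) := by
  classical
  intro E hE hinv
  set M := PMod (iota H f) with hM
  set ν : Measure (Dual M × Dual M) := (haar M).prod (haar M) with hν
  set c : ℂ := ((ν.real E : ℝ) : ℂ) with hc
  set h : Dual M × Dual M → ℂ := fun p => E.indicator (fun _ => (1 : ℂ)) p - c with hh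
  have hmeas : Measurable h := (measurable_const.indicator hE).sub measurable_const
  have hbd : ∀ p, ‖h p‖ ≤ 2 := by
    intro p
    have h1 : ‖E.indicator (fun _ => (1 : ℂ)) p‖ ≤ 1 := by
      by_cases hp : p ∈ E <;> simp [hp]
    have h2 : ‖c‖ ≤ 1 := by
      rw [hc, Complex.norm_real, Real.norm_eq_abs, abs_of_nonneg measureReal_nonneg]
      exact measureReal_le_one
    calc ‖h p‖ ≤ ‖E.indicator (fun _ => (1 : ℂ)) p‖ + ‖c‖ := norm_sub_le _ _
      _ ≤ 2 := by linarith
  have hLp : MemLp h 2 ν := MemLp.of_bound hmeas.aestronglyMeasurable 2 (Filter.Eventually.of_forall hbd)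
  have hzero : ∀ a : M × M, ∫ p, h p * conj (chi2 a p) ∂ν = 0 := by
    intro a
    by_cases ha : a = 0
    · subst ha
      simp_rw [chi2_zero, map_one, mul_one, hh]
      rw [integral_sub ((integrable_const _).indicator hE) (integrable_const _),
        integral_indicator hE]
      simp [hc]
    · set s : ℕ → M × M := fun n =>
        (act (iota H f) (tt H n) a.1, act (iota H f) (tt H n) a.2) with hs
      have hs0 : s 0 = a := by
        simp [hs, tt_zero, act_one]
      have hinj : Function.Injective s := by
        have key : ∀ i j : ℕ, i < j → s i ≠ s j := by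
          intro i j hij heq
          have hij' : ((j : ℤ) - i) ≠ 0 := by omega
          have e0 : (j : ℤ) = (i : ℤ) + ((j : ℤ) - i) := by ring
          have e1 : ∀ m : M, act (iota H f) (tt H i) m = act (iota H f) (tt H j) m → m = 0 := by
            intro m hm
            apply fixed_eq_zero f hij'
            rw [e0, tt_add, act_mul] at hm
            have h2 := congrArg (act (iota H f) (tt H (-(i : ℤ)))) hm
            rw [← act_mul, ← act_mul, ← tt_add, neg_add_cancel, tt_zero, act_one, act_one] at h2
            exact h2.symm
          apply ha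
          have h1 := e1 a.1 (congrArg Prod.fst heq)
          have h2 := e1 a.2 (congrArg Prod.snd heq)
          exact Prod.ext h1 h2
        intro i j hij
        rcases lt_trichotomy i j with h1 | h1 | h1
        · exact absurd hij (key i j h1)
        · exact h1
        · exact absurd hij.symm (key j i h1)
      have hconst : ∀ n, ∫ p, h p * conj (chi2 (s n) p) ∂ν = ∫ p, h p * conj (chi2 a p) ∂ν := by
        intro n
        have hmp := mp_diag (iota H f) (tt H n)
        have hint := int_comp hmp (fun p => h p * conj (chi2 (s n) p))
          (hmeas.mul (Complex.continuous_conj.comp (chi2 (s n)).continuous).measurable)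
        rw [← hint]
        apply integral_congr_ae
        filter_upwards [(hinv (tt H n)).mem_iff] with p hp0
        have hp : diag (iota H f) (tt H n) p ∈ E ↔ p ∈ E := hp0
        have e1 : h (diag (iota H f) (tt H n) p) = h p := by
          rw [hh]
          dsimp only
          congr 1
          by_cases hpE : p ∈ E
          · rw [Set.indicator_of_mem hpE, Set.indicator_of_mem (hp.mpr hpE)]
          · rw [Set.indicator_of_notMem hpE, Set.indicator_of_notMem (fun h' => hpE (hp.mp h'))]
        have e2 : chi2 (s n) (diag (iota H f) (tt H n) p) = chi2 a p := by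
          rw [chi2_apply, chi2_apply]
          exact congrArg₂ (· * ·) (chi_dualAct' _ _ _ _) (chi_dualAct' _ _ _ _)
        rw [e1, e2]
      have := coeff_zero_of_orbit chi2 ν chi2_zero chi2_add chi2_neg integral_chi2 h hLp s hinj
        (by intro n; rw [hconst, hs0])
      rw [hs0] at this
      exact this
  have hae := ae_zero_of_ortho chi2 ν chi2_zero chi2_add chi2_neg chi2_sep h hLp hzero
  obtain ⟨p, hp⟩ := hae.exists
  have hp' : E.indicator (fun _ => (1 : ℂ)) p = c := sub_eq_zero.mp hp
  by_cases hpE : p ∈ E
  · right
    rw [Set.indicator_of_mem hpE] at hp'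
    have h1 : ν.real E = 1 := by
      have : ((ν.real E : ℝ) : ℂ) = ((1 : ℝ) : ℂ) := by rw [← hc, ← hp']; simp
      exact_mod_cast this
    have h2 := ENNReal.ofReal_toReal (measure_ne_top ν E)
    rw [← h2, show (ν E).toReal = 1 from h1, ENNReal.ofReal_one]
  · left
    rw [Set.indicator_of_notMem hpE] at hp'
    have h1 : ν.real E = 0 := by
      have : ((ν.real E : ℝ) : ℂ) = ((0 : ℝ) : ℂ) := by rw [← hc, ← hp']; simp
      exact_mod_cast this
    have h2 := ENNReal.ofReal_toReal (measure_ne_top ν E)
    rw [← h2, show (ν E).toReal = 0 from h1, ENNReal.ofReal_zero]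

theorem nonTrivial_iota (w : PMod (iota H f)) (hw : ∀ g : H, act (iota H f) (g, 1) w = w)
    (hn : ∀ u : PMod (iota H f), w ≠ act (iota H f) (tt H 1) u - u) :
    NonTrivialCocycle (act (iota H f)) := by
  classical
  refine ⟨fun g x => ev x (coc f w g), ?_, ?_, ?_⟩
  · intro g
    exact (chi (coc f w g)).continuous.measurable
  · intro g h x
    dsimp only
    rw [coc_mul f w hw, ev_add, ev_dualAct, inv_inv]
  · rintro ⟨χ, b, hb, hco⟩
    set B : Dual (PMod (iota H f)) → ℂ := fun x => (b x : ℂ) with hB
    have hLp : MemLp B 2 (haar (PMod (iota H f))) := MemLp.of_bound hb.aestronglyMeasurable 1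
      (Filter.Eventually.of_forall (fun x => (Circle.norm_coe (b x)).le))
    have hn' : ∀ u : PMod (iota H f), -w ≠ act (iota H f) (tt H 1) u - u := by
      intro u hu
      apply hn (-u)
      rw [act_neg]
      calc w = -(-w) := (neg_neg w).symm
        _ = -act (iota H f) (tt H 1) u - -u := by rw [hu]; abel
    set bh : PMod (iota H f) → ℂ := fun m => ∫ x, B x * conj (chi m x) ∂(haar (PMod (iota H f))) with hbh
    have hstep : ∀ m : PMod (iota H f), ‖bh (alpha f (-w) m)‖ = ‖bh m‖ := by
      intro m
      have h1 : bh (alpha f (-w) m) = (χ (tt H 1) : ℂ) * bh m := by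
        rw [hbh]
        dsimp only
        rw [← integral_const_mul]
        have hmp := mp_dualAct (iota H f) (tt H 1)
        have hmp' := mp_dualAct (iota H f) (tt H 1)⁻¹
        have hint := int_comp hmp'
          (fun x => (χ (tt H 1) : ℂ) * (B x * conj (chi m x)))
          (measurable_const.mul
            (hb.mul (Complex.continuous_conj.comp (chi m).continuous).measurable))
        rw [← hint]
        apply integral_congr_ae
        filter_upwards [hco (tt H 1)] with x hx
        rw [coc_tt] at hx
        have h2 : (ev x w : ℂ) * B x = (χ (tt H 1) : ℂ) * B (dualAct (act (iota H f)) (tt H 1)⁻¹ x) := by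
          rw [hx, Circle.coe_mul, Circle.coe_mul, Circle.coe_inv, hB]
          dsimp only
          field_simp [Circle.coe_ne_zero]
        rw [alpha_apply, chi_add, chi_neg, map_mul, Complex.conj_conj]
        have h3 : chi (act (iota H f) (tt H 1) m) x =
            chi m (dualAct (act (iota H f)) (tt H 1)⁻¹ x) := by
          rw [chi_dualAct, inv_inv]
        rw [h3]
        have h4 : chi w x = (ev x w : ℂ) := rfl
        rw [h4]
        linear_combination (conj (chi m (dualAct (act (iota H f)) (tt H 1)⁻¹ x))) * h2
      rw [h1, norm_mul, Circle.norm_coe, one_mul]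
    have hzero : ∀ m : PMod (iota H f), bh m = 0 := by
      intro m
      set s : ℕ → PMod (iota H f) := fun n => (alpha f (-w) ^ (n : ℤ)) m with hs
      have hs0 : s 0 = m := by simp [hs]
      have hsucc : ∀ n, s (n + 1) = alpha f (-w) (s n) := by
        intro n
        simp only [hs]
        rw [Nat.cast_add, Nat.cast_one, add_comm, zpow_add, zpow_one]
        rfl
      have hnorm : ∀ n, ‖bh (s n)‖ = ‖bh (s 0)‖ := by
        intro n
        induction n with
        | zero => rfl
        | succ n ih => rw [hsucc, hstep, ih]
      have hinj : Function.Injective s := by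
        have key : ∀ i j : ℕ, i < j → s i ≠ s j := by
          intro i j hij heq
          have hij' : ((j : ℤ) - i) ≠ 0 := by omega
          apply alpha_no_fixed f (-w) hn' hij' (s i)
          have e0 : (j : ℤ) = ((j : ℤ) - i) + i := by ring
          have e1 : s j = (alpha f (-w) ^ ((j : ℤ) - i)) (s i) := by
            simp only [hs]
            conv_lhs => rw [e0, zpow_add]
            rfl
          rw [← e1, heq]
        intro i j hij
        rcases lt_trichotomy i j with h1 | h1 | h1
        · exact absurd hij (key i j h1)
        · exact h1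
        · exact absurd hij.symm (key j i h1)
      have := coeff_zero_of_orbit chi (haar (PMod (iota H f))) chi_zero chi_add chi_neg integral_chi B hLp s hinj
        hnorm
      rw [hs0] at this
      exact this
    have hae := ae_zero_of_ortho chi (haar (PMod (iota H f))) chi_zero chi_add chi_neg chi_sep B hLp hzero
    obtain ⟨x, hx⟩ := hae.exists
    exact Circle.coe_ne_zero (b x) hx

end

instance : Countable SL2 := by
  have : Countable (Matrix (Fin 2) (Fin 2) ℤ) := inferInstanceAs (Countable (Fin 2 → Fin 2 → ℤ))
  exact Subtype.countable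

theorem weaklyMixing_ff : WeaklyMixing (act ff) := by
  rw [ff_eq]
  exact weaklyMixing_iota f1

theorem nonTrivial_ff : NonTrivialCocycle (act ff) := by
  rw [ff_eq]
  exact nonTrivial_iota f1 ww ww_inv ww_not

end Pool.Agent.R237.WM
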